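import Mathlib

namespace Pool.Agent.Results.MP_3e1131_co.Bounded

/-- `A` contains a copy `a S + b` with `a ≥ 1` -/
def Has (S A : Finset ℕ) : Prop :=
  ∃ (a : ℕ) (b : ℤ), 1 ≤ a ∧ ∀ s ∈ S, ∃ m ∈ A, (m : ℤ) = a * s + b

/-- Maker (owning `A`, to move, Breaker owning `B`) wins with at most `k` further selections -/
def Win (S : Finset ℕ) : ℕ → Finset ℕ → Finset ℕ → Prop
  | 0, A, _ => Has S A
  | k + 1, A, B => Has S A ∨
      ∃ x, x ∉ A ∪ B ∧ ∀ y, y ∉ insert x A ∪ B → Win S k (insert x A) (insert y B)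

section

variable {V : Type} [DecidableEq V] (P : Finset V → Prop)

def G : ℕ → Finset V → Finset V → Prop
  | 0, A, _ => P A
  | k + 1, A, B => P A ∨ ∃ x, x ∉ A ∪ B ∧ (P (insert x A) ∨
      ((∃ y, y ∉ insert x A ∪ B) ∧ ∀ y, y ∉ insert x A ∪ B → G k (insert x A) (insert y B)))

def G' (k : ℕ) (A B : Finset V) : Prop :=
  P A ∨ ((∃ y, y ∉ A ∪ B) ∧ ∀ y, y ∉ A ∪ B → G P k A (insert y B))

theorem G_of (k : ℕ) (A B : Finset V) (h : P A) : G P k A B := by
  cases k
  · exact h
  · exact Or.inl h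

theorem G_mono : ∀ k A B, G P k A B → G P (k + 1) A B := by
  intro k
  induction k with
  | zero => intro A B h; exact Or.inl h
  | succ k ih =>
    intro A B h
    rcases h with h | ⟨x, hx, h | ⟨h1, h2⟩⟩
    · exact Or.inl h
    · exact Or.inr ⟨x, hx, Or.inl h⟩
    · exact Or.inr ⟨x, hx, Or.inr ⟨h1, fun y hy => ih _ _ (h2 y hy)⟩⟩

theorem det [Fintype V] (hR : ∀ A B : Finset V, (∀ v, v ∈ A ∪ B) → P A ∨ P B) :
    ∀ f A B, (A ∪ B)ᶜ.card ≤ f → G P f A B ∨ G' P f B A := by
  intro f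
  have full : ∀ k A B, (∀ v, v ∈ A ∪ B) → G P k A B ∨ G' P k B A := fun k A B h =>
    (hR A B h).imp (G_of P k A B) Or.inl
  induction f with
  | zero =>
    intro A B h
    refine full _ A B fun v => ?_
    have : (A ∪ B)ᶜ = ∅ := Finset.card_eq_zero.1 (by omega)
    by_contra hv
    have : v ∈ (A ∪ B)ᶜ := Finset.mem_compl.2 hv
    simp_all
  | succ f ih =>
    intro A B h
    by_cases hf : ∀ v, v ∈ A ∪ B
    · exact full _ A B hf
    push Not at hf
    have step : ∀ x, x ∉ A ∪ B → G P f B (insert x A) ∨ G' P f (insert x A) B := by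
      intro x hx
      apply ih
      have e : (B ∪ insert x A)ᶜ = ((A ∪ B)ᶜ).erase x := by
        ext v; simp; tauto
      rw [e, Finset.card_erase_of_mem (Finset.mem_compl.2 hx)]
      omega
    by_cases hx : ∃ x, x ∉ A ∪ B ∧ G' P f (insert x A) B
    · obtain ⟨x, h1, h2⟩ := hx
      exact Or.inl (Or.inr ⟨x, h1, h2⟩)
    · push Not at hx
      refine Or.inr (Or.inr ⟨by simpa [Finset.union_comm] using hf, fun y hy => ?_⟩)
      rw [Finset.union_comm] at hy
      exact G_mono P _ _ _ ((step y hy).resolve_right (hx y hy))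

theorem sim (S : Finset ℕ) (φ : V → ℕ) (hφ : Function.Injective φ)
    (hP : ∀ A, P A → Has S (A.image φ)) : ∀ k A B (Br : Finset ℕ), G P k A B →
    (∀ v, φ v ∈ Br → v ∈ B) → Win S k (A.image φ) Br := by
  intro k
  have won : ∀ k A (Br : Finset ℕ), P A → Win S k (A.image φ) Br := by
    intro k A Br h
    cases k
    · exact hP A h
    · exact Or.inl (hP A h)
  induction k with
  | zero => intro A B Br h _; exact hP A h
  | succ k ih =>
    intro A B Br h hB
    rcases h with h | ⟨x, hx, h⟩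
    · exact Or.inl (hP A h)
    simp only [Finset.mem_union, not_or] at hx
    refine Or.inr ⟨φ x, ?_, fun y hy => ?_⟩
    · simp only [Finset.mem_union, not_or, hφ.mem_finset_image]
      exact ⟨hx.1, fun h => hx.2 (hB x h)⟩
    rw [← Finset.image_insert] at hy ⊢
    rcases h with h | ⟨⟨y0, h0⟩, h2⟩
    · exact won _ _ _ h
    by_cases hy' : ∃ v, φ v = y ∧ v ∉ B
    · obtain ⟨v, rfl, hv⟩ := hy'
      simp only [Finset.mem_union, not_or, hφ.mem_finset_image] at hy
      refine ih _ _ _ (h2 v (by simp only [Finset.mem_union, not_or]; exact ⟨hy.1, hv⟩)) ?_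
      intro w hw
      rcases Finset.mem_insert.1 hw with h | h
      · rw [hφ h]; exact Finset.mem_insert_self _ _
      · exact Finset.mem_insert_of_mem (hB w h)
    · push Not at hy'
      refine ih _ _ _ (h2 y0 h0) ?_
      intro w hw
      rcases Finset.mem_insert.1 hw with h | h
      · exact Finset.mem_insert_of_mem (hy' w h)
      · exact Finset.mem_insert_of_mem (hB w h)

end

theorem HJ (n : ℕ) : ∃ d : ℕ, ∀ C : (Fin d → Fin n) → Bool,
    ∃ l : Combinatorics.Line (Fin n) (Fin d), l.IsMono C := by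
  obtain ⟨ι, _, h⟩ := Combinatorics.Line.exists_mono_in_high_dimension (Fin n) Bool
  let e := Fintype.equivFin ι
  refine ⟨Fintype.card ι, fun C => ?_⟩
  obtain ⟨l, c, hc⟩ := h fun x => C (x ∘ e.symm)
  refine ⟨⟨l.idxFun ∘ e.symm, ?_⟩, c, fun a => hc a⟩
  obtain ⟨i, hi⟩ := l.proper
  exact ⟨e i, by simpa using hi⟩

theorem result : ∃ C : ℕ → ℕ, ∀ S : Finset ℕ, S.Nonempty → Win S (C S.card) ∅ ∅ := by
  classical
  choose d hd using HJ
  refine ⟨fun n => n ^ d n, fun S _ => ?_⟩
  set n := S.card with hn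
  let s : Fin n → ℕ := S.orderEmbOfFin hn.symm
  have hs : ∀ i, s i < S.sup id + 1 := fun i =>
    Nat.lt_succ_of_le (Finset.le_sup (f := id) (S.orderEmbOfFin_mem hn.symm i))
  let φ : (Fin (d n) → Fin n) → ℕ := fun x =>
    (finFunctionFinEquiv fun i => (⟨s (x i), hs _⟩ : Fin (S.sup id + 1))).val
  have hφ : Function.Injective φ := by
    intro x y h
    have := finFunctionFinEquiv.injective (Fin.ext h)
    funext i
    have h2 := congrArg Fin.val (congrFun this i)
    exact (S.orderEmbOfFin hn.symm).injective h2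
  have hφ' : ∀ x, φ x = ∑ i, s (x i) * (S.sup id + 1) ^ (i : ℕ) := fun x =>
    finFunctionFinEquiv_apply _
  let P : Finset (Fin (d n) → Fin n) → Prop := fun A =>
    ∃ l : Combinatorics.Line (Fin n) (Fin (d n)), ∀ a, l a ∈ A
  have hR : ∀ A B : Finset (Fin (d n) → Fin n), (∀ v, v ∈ A ∪ B) → P A ∨ P B := by
    intro A B h
    obtain ⟨l, c, hc⟩ := hd n fun x => decide (x ∈ A)
    cases c
    · refine Or.inr ⟨l, fun a => ?_⟩
      have h1 := hc a
      have h2 := h (l a)
      simp_all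
    · exact Or.inl ⟨l, fun a => by simpa using hc a⟩
  have hP : ∀ A, P A → Has S (A.image φ) := by
    rintro A ⟨l, hl⟩
    refine ⟨∑ i, if l.idxFun i = none then (S.sup id + 1) ^ (i : ℕ) else 0,
      ((∑ i, (l.idxFun i).elim 0 s * (S.sup id + 1) ^ (i : ℕ) : ℕ) : ℤ), ?_, fun t ht => ?_⟩
    · obtain ⟨i, hi⟩ := l.proper
      refine le_trans ?_ (Finset.single_le_sum (fun _ _ => Nat.zero_le _) (Finset.mem_univ i))
      rw [if_pos hi]
      exact Nat.one_le_pow _ _ (by omega)
    · obtain ⟨a, ha⟩ : ∃ a, s a = t := by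
        have : t ∈ Set.range (S.orderEmbOfFin hn.symm) := by
          rw [Finset.range_orderEmbOfFin]; exact ht
        exact this
      refine ⟨φ (l a), Finset.mem_image_of_mem _ (hl a), ?_⟩
      rw [hφ', ← Nat.cast_mul, ← Nat.cast_add, Nat.cast_inj, Finset.sum_mul,
        ← Finset.sum_add_distrib]
      refine Finset.sum_congr rfl fun i _ => ?_
      cases hi : l.idxFun i with
      | none => simp [hi, ha, mul_comm]
      | some c => simp [hi]
  rcases det P hR (n ^ d n) ∅ ∅ (by simp) with h | h | ⟨⟨y, hy⟩, h⟩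
  · exact sim P S φ hφ hP _ ∅ ∅ ∅ h (by simp)
  · exact sim P S φ hφ hP _ ∅ ∅ ∅ (G_of P _ _ _ h) (by simp)
  · exact sim P S φ hφ hP _ ∅ _ ∅ (h y hy) (by simp)

end Pool.Agent.Results.MP_3e1131_co.Bounded
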